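import Pool.Agent.P.MP_a7d87e_pr.Main

namespace Pool.Agent.P.MP_a7d87e_pr.Moved.Jump

open MeasureTheory Pool.Agent.P.MP_a7d87e_pr

/-- Sanity check (not the hand-in): almost surely the dynamics has exactly one trajectory,
so `theta d p` is the probability that the root fixates at `+1`. -/
theorem wellPosed (d : ℕ) (p : unitInterval) : ∀ᵐ ω ∂law d p, ∃! s, IsSol ω s := by
  filter_upwards [fd_ae p] with ω hf
  exact ⟨sol ω, isSol_sol hf, fun s hs => funext fun x => funext fun k =>
    (hf x k).unique hs (isSol_sol hf)⟩

/-- For every odd `d ≥ 5`, the fixation probability `θ_d` of majority dynamics on the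
`d`-regular tree is discontinuous at `p_c(d)`. -/
theorem result (d : ℕ) (hd : Odd d) (h5 : 5 ≤ d) : ¬ ContinuousAt (theta d) (pc d) := by
  obtain ⟨c, hc, h⟩ := theta_gap hd h5
  exact not_continuousAt_of_gap (theta d) hc h theta_zero
    (by rw [theta_one (by omega)]; exact one_ne_zero) fun _ => measureReal_nonneg

end Pool.Agent.P.MP_a7d87e_pr.Moved.Jump
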